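import Mathlib
import Pool.Agent.W187.WP.Stmts2
import Pool.Agent.W120.WP.GA

/-!
# Small numerical facts for the Weil positivity project
-/

set_option autoImplicit false
set_option linter.all false

open Pool.Agent.W187.WP

namespace Pool.Agent.W343.WP

theorem log2_lo : 0.693147180559944 ≤ Real.log 2 := by
  have h := (abs_le.1 Pool.Agent.W120.WP.log2_15).1
  norm_num at h ⊢
  linarith

theorem log2_hi : Real.log 2 ≤ 0.693147180559947 := by
  have h := (abs_le.1 Pool.Agent.W120.WP.log2_15).2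
  norm_num at h ⊢
  linarith

theorem sqrt2_lo : 1.414213562373095 ≤ Real.sqrt 2 := by
  apply Real.le_sqrt_of_sq_le
  norm_num

theorem sqrt2_hi : Real.sqrt 2 ≤ 1.414213562373096 := by
  rw [Real.sqrt_le_left (by norm_num)]
  norm_num

theorem part1 : |Real.log 2 / Real.sqrt 2 - (lamQ : ℝ)| ≤ 1 / 10 ^ 12 := by
  have h2 : Real.sqrt 2 * Real.sqrt 2 = 2 := Real.mul_self_sqrt (by norm_num)
  have hs : 0 < Real.sqrt 2 := by positivity
  have h1 : Real.log 2 / Real.sqrt 2 = Real.log 2 * Real.sqrt 2 / 2 := by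
    rw [div_eq_div_iff hs.ne' (by norm_num)]
    rw [mul_assoc, h2]
  rw [h1]
  have a1 := log2_lo
  have a2 := log2_hi
  have b1 := sqrt2_lo
  have b2 := sqrt2_hi
  have c1 : 0.693147180559944 * 1.414213562373095 ≤ Real.log 2 * Real.sqrt 2 :=
    mul_le_mul a1 b1 (by norm_num) (by linarith)
  have c2 : Real.log 2 * Real.sqrt 2 ≤ 0.693147180559947 * 1.414213562373096 :=
    mul_le_mul a2 b2 hs.le (by norm_num)
  have hl : (lamQ : ℝ) = 122532267933568399 / 250000000000000000 := by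
    unfold lamQ
    norm_num
  rw [hl, abs_le]
  constructor <;> norm_num at * <;> linarith

theorem part2 : |4 / 5 * Real.log 2 - (aQ : ℝ)| ≤ 1 / 10 ^ 12 := by
  have a1 := log2_lo
  have a2 := log2_hi
  have hl : (aQ : ℝ) = 55451774444795624753/100000000000000000000 := by
    unfold aQ
    norm_num
  rw [hl, abs_le]
  constructor <;> norm_num at * <;> linarith

/-- powers of `(2/5) log 2` -/
theorem pw (m : ℕ) : (0.2772588722239776 : ℝ) ^ m ≤ (4 / 5 * Real.log 2 / 2) ^ m ∧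
    (4 / 5 * Real.log 2 / 2) ^ m ≤ (0.2772588722239788 : ℝ) ^ m := by
  have a1 := log2_lo
  have a2 := log2_hi
  constructor
  · apply pow_le_pow_left₀ (by norm_num)
    norm_num at *
    linarith
  · apply pow_le_pow_left₀
    · norm_num at *
      linarith
    · norm_num at *
      linarith

theorem expb (t : ℝ) (ht : |t| ≤ 0.2773) :
    |Real.exp t - ∑ m ∈ Finset.range 11, t ^ m / (m.factorial : ℝ)| ≤ 1 / 10 ^ 13 := by
  have h := Real.exp_bound (x := t) (ht.trans (by norm_num)) (n := 11) (by norm_num)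
  refine h.trans ?_
  have h1 : |t| ^ 11 ≤ 0.2773 ^ 11 := pow_le_pow_left₀ (abs_nonneg _) ht 11
  calc |t| ^ 11 * (((11 : ℕ).succ : ℝ) / (((11 : ℕ).factorial : ℝ) * ((11 : ℕ) : ℝ)))
      ≤ 0.2773 ^ 11 * (((11 : ℕ).succ : ℝ) / (((11 : ℕ).factorial : ℝ) * ((11 : ℕ) : ℝ))) := by
        apply mul_le_mul_of_nonneg_right h1
        positivity
    _ ≤ 1 / 10 ^ 13 := by
        norm_num [Nat.factorial]

theorem mono_bound {x : ℝ} (hx : |x| ≤ 1) (m : ℕ) (c e lo hi : ℝ)
    (h1 : lo ≤ (4 / 5 * Real.log 2 / 2) ^ m) (h2 : (4 / 5 * Real.log 2 / 2) ^ m ≤ hi)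
    (f : ℝ) (hf : 0 < f) (h3 : c - e ≤ lo / f) (h4 : hi / f ≤ c + e) :
    |(4 / 5 * Real.log 2 * x / 2) ^ m / f - c * x ^ m| ≤ e := by
  have h5 : (4 / 5 * Real.log 2 * x / 2) ^ m / f - c * x ^ m =
      ((4 / 5 * Real.log 2 / 2) ^ m / f - c) * x ^ m := by
    have : 4 / 5 * Real.log 2 * x / 2 = (4 / 5 * Real.log 2 / 2) * x := by ring
    rw [this, mul_pow]
    ring
  rw [h5, abs_mul, abs_pow]
  have h6 : |(4 / 5 * Real.log 2 / 2) ^ m / f - c| ≤ e := by
    rw [abs_le]
    constructor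
    · have : lo / f ≤ (4 / 5 * Real.log 2 / 2) ^ m / f := by gcongr
      linarith
    · have : (4 / 5 * Real.log 2 / 2) ^ m / f ≤ hi / f := by gcongr
      linarith
  calc _ ≤ e * 1 := mul_le_mul h6 (pow_le_one₀ (abs_nonneg _) hx) (by positivity)
        ((abs_nonneg _).trans h6)
    _ = e := mul_one e

theorem tb {x : ℝ} (hx : |x| ≤ 1) : |4 / 5 * Real.log 2 * x / 2| ≤ 0.2773 := by
  have : 4 / 5 * Real.log 2 * x / 2 = (4 / 5 * Real.log 2 / 2) * x := by ring
  rw [this, abs_mul]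
  have a1 := log2_lo
  have a2 := log2_hi
  have h1 : |4 / 5 * Real.log 2 / 2| ≤ 0.2773 := by
    rw [abs_of_nonneg (by norm_num at *; linarith)]
    norm_num at *
    linarith
  calc _ ≤ 0.2773 * 1 := mul_le_mul h1 hx (abs_nonneg _) (by norm_num)
    _ = _ := by norm_num

theorem part3 (x : ℝ) (hx : |x| ≤ 1) :
    |Real.cosh (4 / 5 * Real.log 2 * x / 2) - ev cpl x| ≤ 2 / 10 ^ 12 := by
  set t := 4 / 5 * Real.log 2 * x / 2 with ht
  have ht1 : |t| ≤ 0.2773 := tb hx
  have e1 := abs_le.1 (expb t ht1)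
  have e2 := abs_le.1 (expb (-t) (by rwa [abs_neg]))
  have m2 := abs_le.1 (mono_bound hx 2 (384362411134561/10000000000000000) (1 / 10 ^ 14) _ _ (pw 2).1 (pw 2).2 2 (by norm_num)
    (by norm_num) (by norm_num))
  have m4 := abs_le.1 (mono_bound hx 4 (2462241051553/10000000000000000) (1 / 10 ^ 14) _ _ (pw 4).1 (pw 4).2 24 (by norm_num)
    (by norm_num) (by norm_num))
  have m6 := abs_le.1 (mono_bound hx 6 (6309286049/10000000000000000) (1 / 10 ^ 14) _ _ (pw 6).1 (pw 6).2 720 (by norm_num)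
    (by norm_num) (by norm_num))
  have m8 := abs_le.1 (mono_bound hx 8 (8660901/10000000000000000) (1 / 10 ^ 14) _ _ (pw 8).1 (pw 8).2 40320 (by norm_num)
    (by norm_num) (by norm_num))
  have m10 := abs_le.1 (mono_bound hx 10 0 (1 / 10 ^ 12) _ _ (pw 10).1 (pw 10).2 3628800 (by norm_num)
    (by norm_num) (by norm_num))
  rw [← ht] at m2 m4 m6 m8 m10
  simp only [Finset.sum_range_succ, Finset.sum_range_zero, Nat.factorial] at e1 e2
  have hev : ev cpl x = 1 + 384362411134561/10000000000000000 * x ^ 2 +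
      2462241051553/10000000000000000 * x ^ 4 + 6309286049/10000000000000000 * x ^ 6 +
      8660901/10000000000000000 * x ^ 8 := by
    simp only [cpl, ev]
    push_cast
    ring
  rw [hev, Real.cosh_eq, abs_le]
  norm_num at e1 e2 m2 m4 m6 m8 m10 ⊢
  ring_nf at e1 e2 m2 m4 m6 m8 m10 ⊢
  constructor <;> linarith

theorem part4 (x : ℝ) (hx : |x| ≤ 1) :
    |Real.sinh (4 / 5 * Real.log 2 * x / 2) - ev spl x| ≤ 2 / 10 ^ 12 := by
  set t := 4 / 5 * Real.log 2 * x / 2 with ht
  have ht1 : |t| ≤ 0.2773 := tb hx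
  have e1 := abs_le.1 (expb t ht1)
  have e2 := abs_le.1 (expb (-t) (by rwa [abs_neg]))
  have m1 := abs_le.1 (mono_bound hx 1 (2772588722239781/10000000000000000) (1 / 10 ^ 14) _ _ (pw 1).1 (pw 1).2 1 (by norm_num)
    (by norm_num) (by norm_num))
  have m3 := abs_le.1 (mono_bound hx 3 (17761314772743/5000000000000000) (1 / 10 ^ 14) _ _ (pw 3).1 (pw 3).2 6 (by norm_num)
    (by norm_num) (by norm_num))
  have m5 := abs_le.1 (mono_bound hx 5 (136535635419/10000000000000000) (1 / 10 ^ 14) _ _ (pw 5).1 (pw 5).2 120 (by norm_num)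
    (by norm_num) (by norm_num))
  have m7 := abs_le.1 (mono_bound hx 7 (249900791/10000000000000000) (1 / 10 ^ 14) _ _ (pw 7).1 (pw 7).2 5040 (by norm_num)
    (by norm_num) (by norm_num))
  have m9 := abs_le.1 (mono_bound hx 9 (66703/2500000000000000) (1 / 10 ^ 14) _ _ (pw 9).1 (pw 9).2 362880 (by norm_num)
    (by norm_num) (by norm_num))
  rw [← ht] at m1 m3 m5 m7 m9
  simp only [Finset.sum_range_succ, Finset.sum_range_zero, Nat.factorial] at e1 e2
  have hev : ev spl x = 2772588722239781/10000000000000000 * x ^ 1 +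
      17761314772743/5000000000000000 * x ^ 3 + 136535635419/10000000000000000 * x ^ 5 +
      249900791/10000000000000000 * x ^ 7 + 66703/2500000000000000 * x ^ 9 := by
    simp only [spl, ev]
    push_cast
    ring
  rw [hev, Real.sinh_eq, abs_le]
  norm_num at e1 e2 m1 m3 m5 m7 m9 ⊢
  ring_nf at e1 e2 m1 m3 m5 m7 m9 ⊢
  constructor <;> linarith

theorem n3 : S_N3 := ⟨part1, part2, part3, part4⟩

end Pool.Agent.W343.WP
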